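import Pool.Agent.Helper88.QT.St4

/-!
# Project QT (MP_d112a4_gt), module GRB: the gradient of one length.
-/

set_option autoImplicit false

open MeasureTheory Matrix Set Topology Filter
open scoped ENNReal ComplexConjugate

namespace Pool.Agent.Helper72.QT

open Pool.Agent.Helper88.QT Pool.Agent.Helper85.QT Pool.Agent.Helper86.QA
open Pool.Agent.Helper68.QC (nq Bel InvB Intw)

theorem mb_inv (hCHV : Pool.Agent.Helper86.QA.StCHV) {Γ : Type} [Group Γ] (r : Γ →* SL) (γ : Γ)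
    (z : ℂ) (hz : (r γ) 1 0 * z + (r γ) 1 1 ≠ 0) : mb (r γ⁻¹) (mb (r γ) z) = z := by
  have h := (hCHV.2.1 (r γ⁻¹) (r γ) z hz).1
  rw [← map_mul, inv_mul_cancel, map_one, hCHV.2.2.2.1] at h
  exact h.symm

theorem sup_A (hANB : Pool.Agent.Helper85.QT.StANB) {Γ : Type} [Group Γ] {f : ℂ → Γ →* SL} {α : Γ}
    {m C3 a0 : ℝ} {r : Γ →* SL} {A B : Set ℂ} {lam : ℂ} {M : ℝ} {G φ μ : ℂ → ℂ} {μ0 : ℂ}
    (hP : PtD f α m C3 a0 r A B lam M G φ μ μ0) (z : ℂ) (hz : z ∉ A) : μ z = 0 := by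
  refine hP.co.sup z fun g hg => hz ?_
  obtain ⟨w, hw, rfl⟩ := hg
  obtain ⟨-, -, -, -, -, -, -, -, -, -, -, -, -, -, h15⟩ := hANB Γ r A B α lam M G m φ C3 hP.an
  exact (hP.an.kd.mpA g w ((h15 0 m le_rfl le_rfl).1 hw)).2

theorem invB (hCHV : Pool.Agent.Helper86.QA.StCHV) (hANB : Pool.Agent.Helper85.QT.StANB)
    {Γ : Type} [Group Γ] {f : ℂ → Γ →* SL} {α : Γ}
    {m C3 a0 : ℝ} {r : Γ →* SL} {A B : Set ℂ} {lam : ℂ} {M : ℝ} {G φ μ : ℂ → ℂ} {μ0 : ℂ}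
    (hP : PtD f α m C3 a0 r A B lam M G φ μ μ0) (γ : Γ) : InvB (r γ) μ := by
  have hdet : (r γ) 0 0 * (r γ) 1 1 - (r γ) 0 1 * (r γ) 1 0 = 1 := by
    have h := (r γ).2
    rw [Matrix.det_fin_two] at h
    exact h
  have hnull : ∀ᵐ z : ℂ, (r γ) 1 0 * z + (r γ) 1 1 ≠ 0 := by
    have hsub : {z : ℂ | ¬ ((r γ) 1 0 * z + (r γ) 1 1 ≠ 0)} ⊆ {-((r γ) 1 1) / (r γ) 1 0} := by
      intro z hz
      simp only [ne_eq, not_not, mem_setOf_eq] at hz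
      by_cases hc : (r γ) 1 0 = 0
      · exfalso
        rw [hc, zero_mul, zero_add] at hz
        rw [hc, hz] at hdet
        simp at hdet
      · rw [mem_singleton_iff, eq_div_iff hc]
        linear_combination hz
    rw [ae_iff]
    exact measure_mono_null hsub (measure_singleton _)
  refine hnull.mono fun z hz => ?_
  have hmob : Pool.Agent.Helper68.QC.mob (r γ) z = mb (r γ) z := rfl
  have hden : Pool.Agent.Helper68.QC.den (r γ) z = (r γ) 1 0 * z + (r γ) 1 1 := rfl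
  rw [hmob, hden]
  by_cases hA : z ∈ A
  · have h := hP.co.inv γ z hA
    set j := (r γ) 1 0 * z + (r γ) 1 1 with hj
    have hcj : conj j ≠ 0 := (map_ne_zero _).2 hz
    rw [map_inv₀, map_pow] at h
    have h2 : μ (mb (r γ) z) = μ z * (j ^ 2)⁻¹ * (conj j) ^ 2 := by
      rw [← h]
      field_simp
    rw [h2]
    field_simp
  · have h1 : mb (r γ) z ∉ A := by
      intro h
      apply hA
      have h2 := (hP.an.kd.mpA γ⁻¹ _ h).2
      rwa [mb_inv hCHV r γ z hz] at h2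
    rw [sup_A hANB hP z hA, sup_A hANB hP _ h1, zero_mul, zero_mul]

theorem hGRB (hLN : Pool.Agent.Helper35.PM.St_LN) (hCHV : Pool.Agent.Helper86.QA.StCHV)
    (hANB : Pool.Agent.Helper85.QT.StANB) (hMLX : Pool.Agent.Helper88.QT.StMLX)
    (hBRG : Pool.Agent.Helper88.QT.StBRG) (hTOT : Pool.Agent.Helper85.QT.StTOT)
    (hFVG : Pool.Agent.Helper88.QT.StFVG) : Pool.Agent.Helper88.QT.StGRB := by
  intro C3 hC3
  obtain ⟨C, hC1, hT⟩ := hTOT C3 cz hC3 (by norm_num [cz])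
  refine ⟨C, hC1, ?_⟩
  intro Γ _ f α m a0 r A B lam M G φ μ μ0 bb hP hol hlam hDT hμ0 hBnd hCb γ a b u t htl hcon
    hda hfa hdb hfb hlt hga hAdm
  obtain ⟨L, hM, hLt, hL0⟩ := hMLX (r γ) a b t hAdm.ne hda hfa hdb hfb hlt hga
  have hBel : Bel 1 μ := ⟨hP.co.me, hP.co.le⟩
  obtain ⟨Λ, hΛ1, hΛ2, hΛ3⟩ := hFVG Γ f r μ γ b a L (hol γ) htl hBel (invB hCHV hANB hP γ)
    (fun s hs => by
      obtain ⟨C', hC'⟩ := hP.it s hs
      exact ⟨C', hC' γ⟩) hM hL0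
  have hconj : ∀ (g : Γ) (n : ℤ), g⁻¹ * γ * g ≠ α ^ n := by
    intro g n h
    apply hcon g n
    rw [← h]
    group
  have h1 := hT Γ r A B α lam M G m φ bb hP.an hP.cl hDT hBnd hCb μ0 μ hP.co hμ0 γ b a L hconj
    hM hL0 (-(u + t))
  obtain ⟨h2, h3⟩ := hBRG Γ r A B α lam M G m φ C3 hP.an hlam a b u t hAdm
  rw [hLt] at h1
  have hC0 : 0 ≤ C := zero_le_one.trans hC1
  have ht0 : 0 < t := hLt ▸ hL0
  have h4 : ENNReal.ofReal ‖∫ ξ in Fm b a L, μ ξ * th b a ξ‖ ≤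
      ENNReal.ofReal (C * bb ^ 2 / m ^ 2 * t + C * Om r α lam m a b u (u + t)) := by
    rw [ENNReal.ofReal_add (by positivity) (by positivity), ENNReal.ofReal_mul hC0]
    exact h1.trans (by gcongr)
  have h5 := (ENNReal.ofReal_le_ofReal_iff (by positivity)).1 h4
  refine ⟨Λ, hΛ1, fun z hz => by rw [hLN]; exact hΛ2 z hz, ?_⟩
  rw [hΛ3, norm_mul]
  have h6 : ‖(Real.pi : ℂ)⁻¹‖ ≤ 1 := by
    rw [norm_inv, Complex.norm_real, Real.norm_of_nonneg Real.pi_pos.le]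
    exact inv_le_one_of_one_le₀ (by linarith [Real.pi_gt_three])
  calc ‖(Real.pi : ℂ)⁻¹‖ * ‖∫ ξ in Fm b a L, μ ξ * th b a ξ‖
      ≤ 1 * ‖∫ ξ in Fm b a L, μ ξ * th b a ξ‖ := by gcongr
    _ ≤ _ := by rw [one_mul]; exact h5

end Pool.Agent.Helper72.QT
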